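import Pool.Agent.H606.AV.LFk

/-!
# The Lindelöf hypothesis and the zeros of the averages of the xi function

Lagarias' averages `A_h(s) = ξ(s + h) + ξ(s - h)` have all their zeros on the critical line for `h ≥ 1/2`. For `0 < h < 1/2` the zeros of `A_h` see exactly the size
of zeta on the line `Re s = 1/2 + h`: it is `t^o(1)` iff only `o(log T)` of the zeros at heights within `1` of `T` have a given positive distance from the critical line,
and then for all larger `h` all but `o(log T)` of them are simple and on the critical line. Unconditionally the latter fails for at most `T^(1 - h/4)` heights `n ≤ T`,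
and for `h` close to `1/2` all but `ε log T` of them are simple and on the critical line at EVERY large height `T`.

Authors of the parts: plan, statements, assembly: helper606; the lemmas of project LF: helpers 218, 227, 152, 627, 638, 189, 955, 788; of project AV: 402, 328, 187, 736,
314, 784, 289, 965; tools of `Pool/Agent/H466/LD` (zeros from the variation of the argument, Jensen's formula): helper466; growth of `ξ`: helper477;
zeta near the line `Re s = 1`: helper826 and the library.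
-/

set_option autoImplicit false

open Complex

namespace Pool.Agent.Results.MP_4e5e8a_nt.AveragesOfXi

/-- The entire Riemann xi function: `xi s = s (s - 1) Λ(s) / 2` for `s ≠ 0, 1`, where
`Λ(s) = π^(-s/2) Γ(s/2) ζ(s)`, since `Λ(s) = Λ₀(s) - 1/s - 1/(1 - s)`. -/
noncomputable def xi (s : ℂ) : ℂ := (1 + s * (s - 1) * completedRiemannZeta₀ s) / 2

/-- The average `A_h(s) = ξ(s + h) + ξ(s - h)`. -/
noncomputable def A (h : ℝ) (s : ℂ) : ℂ := xi (s + h) + xi (s - h)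

/-- The zeros of `A_h` with `1/2 + a ≤ Re s < 1` and `|Im s - T| ≤ 1`. -/
def Far (h a T : ℝ) : Set ℂ := {s : ℂ | A h s = 0 ∧ 1 / 2 + a ≤ s.re ∧ s.re < 1 ∧ |s.im - T| ≤ 1}

/-- The number of the elements of `Far h a T`, counted with multiplicity. -/
noncomputable def N (h a T : ℝ) : ℝ := ∑ᶠ s ∈ Far h a T, (analyticOrderNatAt (A h) s : ℝ)

/-- For all `a, ε > 0` and all large `T` at most `ε log T` zeros (with multiplicity) are in `Far h a T`. -/
def FewFar (h : ℝ) : Prop :=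
  ∀ a ε : ℝ, 0 < a → 0 < ε → ∃ T₀ : ℝ, ∀ T : ℝ, T₀ ≤ T → N h a T ≤ ε * Real.log T

/-- All but `ε log T` of the zeros of `A_h` with `0 < Re s < 1`, `T ≤ Im s ≤ T + 1` are simple and on the critical line (every finite set `S` of such zeros has total
multiplicity at most `ε log T` plus the number of its elements on the line), and `A_h` has at least `(1 - ε) log T / 2π` simple zeros on the segment
`1/2 + i(T, T + 1)`. -/
def NearlyAll (h T ε : ℝ) : Prop :=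
  (∀ S : Finset ℂ, (∀ s ∈ S, A h s = 0 ∧ 0 < s.re ∧ s.re < 1 ∧ T ≤ s.im ∧ s.im ≤ T + 1) →
    ∑ s ∈ S, ((analyticOrderNatAt (A h) s : ℝ) - if s.re = 1 / 2 then 1 else 0) ≤ ε * Real.log T) ∧
  ∃ S : Finset ℝ, (∀ y ∈ S, T < y ∧ y < T + 1 ∧ A h (1 / 2 + y * I) = 0 ∧
    deriv (A h) (1 / 2 + y * I) ≠ 0) ∧ (1 - ε) * (Real.log T / (2 * Real.pi)) ≤ (S.card : ℝ)

/-- The Lindelöf bound on the line `Re s = 1/2 + h`. -/
def LineBound (h : ℝ) : Prop :=
  ∀ ε : ℝ, 0 < ε → ∃ C : ℝ, ∀ t : ℝ, ‖riemannZeta (1 / 2 + h + t * I)‖ ≤ C * (1 + |t|) ^ ε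

/-- The Lindelöf hypothesis. -/
def Lindelof : Prop :=
  ∀ ε : ℝ, 0 < ε → ∃ C : ℝ, ∀ t : ℝ, ‖riemannZeta (1 / 2 + t * I)‖ ≤ C * (1 + |t|) ^ ε

/-- (0) The sets `Far h a T` are finite. (A) Local law: for `0 < h < 1/2` few zeros of `A_h` away from the critical line near the height `T` force
`|ζ(1/2 + h + iT)| ≤ T^ε`, and conversely small values of zeta on the line `Re s = 1/2 + h` near `T` force few zeros of `A_h` away from the critical line near `T`.
(B) If zeta is small on the line `Re s = 1/2 + h` near `T`, then for all `h'` in `[h₁, 1/2]`, `h₁ > h`, all but `ε log T` of the zeros of `A_h'` at the height `T` are simple and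
on the critical line. (C) For `0 < h < 1/2` the Lindelöf bound on the line `Re s = 1/2 + h` is equivalent to `FewFar h`; for `0 ≤ h₀ < 1/2` the Lindelöf bounds on all lines
`Re s = 1/2 + h > 1/2 + h₀` are equivalent to: for every `h` in `(h₀, 1/2)` all but `o(log T)` of the zeros of `A_h` at the height `T` are simple and on the critical line;
`h₀ = 0` is the Lindelöf hypothesis, which already follows from `FewFar h` for arbitrarily small `h`. (D) Unconditionally, for `0 < h ≤ 1/2` and `ε > 0` and large `T`,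
`NearlyAll h n ε` holds for all integers `n ≤ T` but at most `T^(1 - h/4)`. (E) Unconditionally, with an absolute constant `C`: for every `ε` in `(0, 1]` there is
`T₀` such that `NearlyAll h T ε` holds for ALL `T ≥ T₀` and all `h` with `1/2 - exp(-C/ε) ≤ h ≤ 1/2`. -/
theorem result :
    (∀ h a T : ℝ, 0 < h → h < 1 / 2 → 0 < a → (Far h a T).Finite) ∧
    -- (A)
    (∀ h ε : ℝ, 0 < h → h < 1 / 2 → 0 < ε → ∃ a κ B T₀ : ℝ, 0 < a ∧ 0 < κ ∧ 0 < B ∧
      ∀ T : ℝ, T₀ ≤ T → (∀ x : ℝ, |x - T| ≤ B * Real.log T → N h a x ≤ κ * Real.log x) →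
        ‖riemannZeta (1 / 2 + h + T * I)‖ ≤ T ^ ε) ∧
    (∀ h a ε : ℝ, 0 < h → h < 1 / 2 → 0 < a → 0 < ε → ∃ η T₀ : ℝ, 0 < η ∧
      ∀ T : ℝ, T₀ ≤ T → (∀ x : ℝ, |x - T| ≤ Real.log T → ‖riemannZeta (1 / 2 + h + x * I)‖ ≤ T ^ η) →
        N h a T ≤ ε * Real.log T) ∧
    -- (B)
    (∀ h h₁ ε : ℝ, 0 < h → h < h₁ → h₁ ≤ 1 / 2 → 0 < ε → ∃ η T₀ : ℝ, 0 < η ∧
      ∀ T : ℝ, T₀ ≤ T → (∀ x : ℝ, |x - T| ≤ 2 * Real.log T → ‖riemannZeta (1 / 2 + h + x * I)‖ ≤ T ^ η) →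
        ∀ h' : ℝ, h₁ ≤ h' → h' ≤ 1 / 2 → NearlyAll h' T ε) ∧
    -- (C)
    (∀ h : ℝ, 0 < h → h < 1 / 2 → (LineBound h ↔ FewFar h)) ∧
    (∀ h₀ : ℝ, 0 ≤ h₀ → h₀ < 1 / 2 → ((∀ h : ℝ, h₀ < h → h < 1 / 2 → LineBound h) ↔
      ∀ h : ℝ, h₀ < h → h < 1 / 2 → ∀ ε : ℝ, 0 < ε → ∃ T₀ : ℝ, ∀ T : ℝ, T₀ ≤ T → NearlyAll h T ε)) ∧
    (Lindelof ↔ ∀ h : ℝ, 0 < h → h < 1 / 2 → ∀ ε : ℝ, 0 < ε → ∃ T₀ : ℝ, ∀ T : ℝ, T₀ ≤ T → NearlyAll h T ε) ∧
    (Lindelof ↔ ∀ δ : ℝ, 0 < δ → ∃ h : ℝ, 0 < h ∧ h < δ ∧ h < 1 / 2 ∧ FewFar h) ∧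
    -- (D)
    (∀ h ε : ℝ, 0 < h → h ≤ 1 / 2 → 0 < ε → ∃ T₀ : ℝ, ∀ T : ℝ, T₀ ≤ T →
      ({n : ℕ | (n : ℝ) ≤ T ∧ ¬ NearlyAll h n ε}.ncard : ℝ) ≤ T ^ (1 - h / 4)) ∧
    -- (E)
    (∃ C : ℝ, 0 < C ∧ ∀ ε : ℝ, 0 < ε → ε ≤ 1 → ∃ T₀ : ℝ, ∀ T : ℝ, T₀ ≤ T →
      ∀ h : ℝ, 1 / 2 - Real.exp (-(C / ε)) ≤ h → h ≤ 1 / 2 → NearlyAll h T ε) := by
  have hG := Pool.Agent.H606.AV.q_glob
  have hL : Pool.Agent.H606.AV.S_LINF := Pool.Agent.H638.AV.S_LINF_proof Pool.Agent.H402.AV.S_POI_proof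
    Pool.Agent.H606.AV.d_regf Pool.Agent.H606.AV.d_nmt
  have hJ := Pool.Agent.H606.AV.d_jenf
  have hS := Pool.Agent.H606.AV.d_seg
  have hO := Pool.Agent.H606.AV.d_off
  have hline : ∀ h : ℝ, 0 < h → h < 1 / 2 → (LineBound h ↔ FewFar h) := fun h h0 h1 =>
    Pool.Agent.H606.AV.line_iff hG hL hJ h0 h1
  have hnear : ∀ h₀ : ℝ, 0 ≤ h₀ → h₀ < 1 / 2 → ((∀ h : ℝ, h₀ < h → h < 1 / 2 → LineBound h) ↔
      ∀ h : ℝ, h₀ < h → h < 1 / 2 → ∀ ε : ℝ, 0 < ε → ∃ T₀ : ℝ, ∀ T : ℝ, T₀ ≤ T → NearlyAll h T ε) := by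
    intro h₀ a b
    constructor
    · intro H h h0 h1 ε hε
      obtain ⟨η, T1, hη, H1⟩ := Pool.Agent.H606.AV.loc3 hG hS hO (h := (h₀ + h) / 2) (h₁ := h) (ε := ε)
        (by linarith) (by linarith) h1.le hε
      obtain ⟨T2, -, H2⟩ := Pool.Agent.H606.AV.window (H ((h₀ + h) / 2) (by linarith) (by linarith)) hη
      exact ⟨max T1 T2, fun T hT => H1 T ((le_max_left _ _).trans hT)
        (H2 T ((le_max_right _ _).trans hT)) h le_rfl h1.le⟩
    · intro H h h0 h1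
      exact (hline h (by linarith) h1).2
        (Pool.Agent.H606.AV.few_of_nearly hG (by linarith) h1 (H h h0 h1))
  refine ⟨fun h a T h0 h1 ha => Pool.Agent.H606.AV.Far_fin hG h0 h1 ha,
    fun h ε h0 h1 hε => Pool.Agent.H606.AV.loc1 hG hL h0 h1 hε,
    fun h a ε h0 h1 ha hε => Pool.Agent.H606.AV.loc2 hG hJ h0 h1 ha hε,
    fun h h₁ ε h0 h1 h2 hε => Pool.Agent.H606.AV.loc3 hG hS hO h0 h1 h2 hε, hline, hnear, ⟨?_, ?_⟩, ⟨?_, ?_⟩,
    fun h ε h0 h1 hε => Pool.Agent.H606.AV.nearly_count h0 h1 hε,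
    Pool.Agent.H606.AV.every_height_x hG⟩
  · intro H
    exact (hnear 0 le_rfl (by norm_num)).1 fun h h0 h1 => Pool.Agent.H606.AV.line_of_lindelof hG H h0 h1
  · intro H
    refine Pool.Agent.H606.AV.lindelof_of_lines hG fun δ hδ => ?_
    have h1 : 0 < min δ (1 / 2) := lt_min hδ (by norm_num)
    have h2 := min_le_left δ (1 / 2)
    have h3 := min_le_right δ (1 / 2)
    refine ⟨min δ (1 / 2) / 2, by positivity, by linarith, by linarith, ?_⟩
    exact (hnear 0 le_rfl (by norm_num)).2 H _ (by positivity) (by linarith)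
  · intro H δ hδ
    have h1 : 0 < min δ (1 / 2) := lt_min hδ (by norm_num)
    have h2 := min_le_left δ (1 / 2)
    have h3 := min_le_right δ (1 / 2)
    refine ⟨min δ (1 / 2) / 2, by positivity, by linarith, by linarith, ?_⟩
    exact (hline _ (by positivity) (by linarith)).1
      (Pool.Agent.H606.AV.line_of_lindelof hG H (by positivity) (by linarith))
  · intro H
    refine Pool.Agent.H606.AV.lindelof_of_lines hG fun δ hδ => ?_
    obtain ⟨h, h0, h1, h2, h3⟩ := H δ hδ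
    exact ⟨h, h0, h1, h2, (hline h h0 h2).2 h3⟩

end Pool.Agent.Results.MP_4e5e8a_nt.AveragesOfXi
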