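import Pool.Agent.H466.LD.L21
import Pool.Agent.H307.HP.GWP

/-!
# The Lindelöf hypothesis and the heat flow of the Riemann xi function

`ξ(s) = ½ s (s-1) π^(-s/2) Γ(s/2) ζ(s)` and `ξ_λ(s) = (4πλ)^(-1/2) ∫ ξ(s+v) e^(-v²/4λ) dv`, the heat
flow of `ξ` (`∂ξ_λ/∂λ = ∂²ξ_λ/∂s²`); in the notation of de Bruijn and Newman
`H_t(z) = ξ_(t/4)(1/2 + iz/2) / 8`.

* (A) A value `|ζ(1/2+iT)| ≥ T^κ` forces, at all times `0 < λ ≤ δ / log T` with `δ < 4κ`, at least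
  `η log T` zeros of `ξ_λ` with `Re s ≥ 1/2 + η`, `|Im s - T| ≤ R`.
* (B) Conversely, if `|ζ(1/2+iy)| ≤ T^η` for `|y - T| ≤ R`, then at all times
  `δ₁ / log T ≤ λ ≤ δ / log T` all but `ε log T` of the zeros of `ξ_λ` with `|Im s - T| ≤ Y` are simple
  and on the critical line, and the segment `1/2 + i(T, T+Y)` contains
  `(1 - ε) Y log T / 2π` simple zeros.
* (C) The Lindelöf hypothesis is equivalent to: for all fixed `δ₁ ≤ δ`, `ε`, `Y` the conclusion of (B)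
  holds for all large `T`; it is already implied by: for arbitrarily small `δ` the zeros of
  `ξ_(δ / log T)` with `Re s ≥ 1/2 + ε`, `|Im s - T| ≤ Y` are `≤ ε log T` in number for all large `T`.
* (D) Without any hypothesis, the conclusion of (B) holds at all heights `t ∈ [T, 2T]` outside a set of
  measure at most `T^(1-c)`, simultaneously for all times `δ₁ / log t ≤ λ ≤ δ / log t`.

The power saving in the large values of `ζ` used in (D) is by helper307 (`H307/HP/GWP.lean`).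
-/

open Complex MeasureTheory Set

set_option autoImplicit false

namespace Pool.Agent.Results.MP_4e5e8a_nt.HeatFlowLindelof

/-- The Riemann xi function `ξ(s) = ½ s (s-1) Λ(s)`, `Λ(s) = π^(-s/2) Γ(s/2) ζ(s)`; written with
Mathlib's entire function `Λ₀(s) = Λ(s) + 1/s + 1/(1-s)`. -/
noncomputable def xi (s : ℂ) : ℂ := (s * (s - 1) * completedRiemannZeta₀ s + 1) / 2

/-- The heat flow `ξ_λ(s) = (4πλ)^(-1/2) ∫ ξ(s+v) e^(-v²/4λ) dv`, `λ > 0`. -/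
noncomputable def xiHeat (lam : ℝ) (s : ℂ) : ℂ :=
  ((1 / Real.sqrt (4 * Real.pi * lam) : ℝ) : ℂ) *
    ∫ v : ℝ, xi (s + v) * (Real.exp (-v ^ 2 / (4 * lam)) : ℂ)

/-- The Lindelöf hypothesis. -/
def Lindelof : Prop :=
  ∀ ε : ℝ, 0 < ε → ∃ C : ℝ, ∀ t : ℝ, ‖riemannZeta (1 / 2 + t * I)‖ ≤ C * (1 + |t|) ^ ε

/-- All but `ε log T` of the zeros of `ξ_λ` with `|Im s - T| ≤ Y` are simple and on the critical line
(every finite set `S` of such zeros has total multiplicity at most `ε log T` plus the number of its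
elements on the line), and there are at least `(1 - ε) Y log T / 2π` simple zeros on the segment
`1/2 + i(T, T+Y)`. -/
def NearlyAllOnLine (lam T ε Y : ℝ) : Prop :=
  (∀ S : Finset ℂ, (∀ s ∈ S, xiHeat lam s = 0 ∧ |s.im - T| ≤ Y) →
    ∑ s ∈ S, ((analyticOrderNatAt (xiHeat lam) s : ℝ) - if s.re = 1 / 2 then 1 else 0) ≤
      ε * Real.log T) ∧
  ∃ S : Finset ℝ, (∀ y ∈ S, T < y ∧ y < T + Y ∧ xiHeat lam (1 / 2 + y * I) = 0 ∧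
    deriv (xiHeat lam) (1 / 2 + y * I) ≠ 0) ∧
    (1 - ε) * (Y * Real.log T / (2 * Real.pi)) ≤ (S.card : ℝ)

/-- The Lindelöf hypothesis in terms of the zeros of the heat flow of the Riemann xi function. -/
theorem result :
    -- (A)
    (∀ κ δ : ℝ, 0 < δ → δ < 4 * κ → ∃ η : ℝ, 0 < η ∧ ∃ R T₀ : ℝ, ∀ T : ℝ, T₀ ≤ T →
      T ^ κ ≤ ‖riemannZeta (1 / 2 + T * I)‖ → ∀ lam : ℝ, 0 < lam → lam * Real.log T ≤ δ →
      ∃ S : Finset ℂ, (∀ s ∈ S, xiHeat lam s = 0 ∧ 1 / 2 + η ≤ s.re ∧ |s.im - T| ≤ R) ∧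
        η * Real.log T ≤ ∑ s ∈ S, (analyticOrderNatAt (xiHeat lam) s : ℝ)) ∧
    -- (B)
    (∀ δ₁ δ ε Y : ℝ, 0 < δ₁ → δ₁ ≤ δ → 0 < ε → 0 < Y → ∃ η : ℝ, 0 < η ∧ ∃ R T₀ : ℝ,
      ∀ T : ℝ, T₀ ≤ T → (∀ y : ℝ, |y - T| ≤ R → ‖riemannZeta (1 / 2 + y * I)‖ ≤ T ^ η) →
      ∀ lam : ℝ, 0 < lam → δ₁ ≤ lam * Real.log T → lam * Real.log T ≤ δ →
      NearlyAllOnLine lam T ε Y) ∧
    -- (C)
    (Lindelof ↔ ∀ δ₁ δ ε Y : ℝ, 0 < δ₁ → δ₁ ≤ δ → 0 < ε → 0 < Y → ∃ T₀ : ℝ, ∀ T : ℝ, T₀ ≤ T →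
      ∀ lam : ℝ, 0 < lam → δ₁ ≤ lam * Real.log T → lam * Real.log T ≤ δ →
      NearlyAllOnLine lam T ε Y) ∧
    (Lindelof ↔ ∀ δ₀ : ℝ, 0 < δ₀ → ∃ δ : ℝ, 0 < δ ∧ δ < δ₀ ∧ ∀ ε Y : ℝ, 0 < ε → 0 < Y →
      ∃ T₀ : ℝ, ∀ T : ℝ, T₀ ≤ T → ∀ S : Finset ℂ,
      (∀ s ∈ S, xiHeat (δ / Real.log T) s = 0 ∧ 1 / 2 + ε ≤ s.re ∧ |s.im - T| ≤ Y) →
      ∑ s ∈ S, (analyticOrderNatAt (xiHeat (δ / Real.log T)) s : ℝ) ≤ ε * Real.log T) ∧
    -- (D)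
    (∀ δ₁ δ ε Y : ℝ, 0 < δ₁ → δ₁ ≤ δ → 0 < ε → 0 < Y → ∃ c : ℝ, 0 < c ∧ ∃ T₀ : ℝ, ∀ T : ℝ, T₀ ≤ T →
      ∃ B : Set ℝ, volume B ≤ ENNReal.ofReal (T ^ (1 - c)) ∧ ∀ t : ℝ, t ∈ Icc T (2 * T) → t ∉ B →
        ∀ lam : ℝ, 0 < lam → δ₁ ≤ lam * Real.log t → lam * Real.log t ≤ δ →
        NearlyAllOnLine lam t ε Y) := by
  refine ⟨?_, ?_, ⟨?_, ?_⟩, ⟨?_, ?_⟩, ?_⟩
  · intro κ δ hδ hκ
    obtain ⟨η, hη, R, -, T0, -, h⟩ := Pool.Agent.H466.LD.law hδ hκ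
    exact ⟨η, hη, R, T0, h⟩
  · intro δ1 δ ε Y h1 h2 h3 h4
    obtain ⟨η, hη, R, -, T0, -, h⟩ := Pool.Agent.H466.LD.localThm h1 h2 h3 h4
    exact ⟨η, hη, R, T0, h⟩
  · exact fun H => Pool.Agent.H466.LD.nearly_of_lindelof H
  · exact fun H => Pool.Agent.H466.LD.lindelof_of_fewFar (Pool.Agent.H466.LD.fewFar_of_nearly H)
  · exact fun H => Pool.Agent.H466.LD.fewFar_of_nearly (Pool.Agent.H466.LD.nearly_of_lindelof H)
  · exact fun H => Pool.Agent.H466.LD.lindelof_of_fewFar H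
  · intro δ1 δ ε Y h1 h2 h3 h4
    obtain ⟨η, hη, R, hR, T0, hT0, h⟩ := Pool.Agent.H466.LD.localThm h1 h2 h3 h4
    obtain ⟨T1, hT1, h'⟩ := Pool.Agent.H307.HP.gwp R η hR hη
    refine ⟨η, hη, max T0 T1, fun T hT => ⟨_, h' T ((le_max_right _ _).trans hT), ?_⟩⟩
    intro t ht htB lam hlam hl1 hl2
    have hTT : T0 ≤ T := (le_max_left _ _).trans hT
    have hTp : 0 < T := by linarith
    refine h t (hTT.trans ht.1) (fun y hy => ?_) lam hlam hl1 hl2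
    by_contra hcon
    push Not at hcon
    refine htB ⟨ht, y, hy, ?_⟩
    rw [mul_comm I]
    refine lt_of_le_of_lt ?_ hcon
    exact Real.rpow_le_rpow hTp.le ht.1 hη.le

end Pool.Agent.Results.MP_4e5e8a_nt.HeatFlowLindelof
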