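import Pool.Agent.H476.LS8

/-!
# The Lindelöf hypothesis and upper bounds of one cosine sum

Let `P_N(t) = ∑_{n ≤ N} n^(-1/2 - it)` and let `Q(t) = P_N(t) + ∑_j c_j e^(-i λ_j t)` be any
continuation of this section of the zeta series by finitely many terms with ARBITRARY real
frequencies `λ_j ≥ log N` and arbitrary complex coefficients (for instance a longer section, a
smoothed section, or anything else). Write `Z(t) = |ζ(1/2 + it)|` and `x⁺ = max(x, 0)`.

* (main inequality, unconditional) Let `A ≥ 0`. There is `K` such that for all large `T`, all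
  `1 ≤ b ≤ log T`, all `N ≥ √T exp(K √(b log T))`, all such `Q` with `∑ |c_j| ≤ T^A` and all `u`
  with `|u| = 1`
  `Z(T) ≤ log T * (∫ (Re u Q(T + v))⁺ e^(-b v²/2) dv + K e^(9b/8))`.
  So, for `b = 1`, a value of zeta larger than `log T` forces the POSITIVE PART OF THE REAL PART of
  every section, of every continuation of the section of length `√T exp(K √(log T))`, and in every
  direction `u`, to be almost as large on the average near `T`.
* (large values) Let `A`, `ε > 0`. There is `R` such that, for all large `T`,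
  `T^(1/2 + ε) ≤ N ≤ T^A` and all such `Q`, `u`, if `Z(T) > T^ε M`, `M ≥ 1`, then there is `t` with
  `|t - T| ≤ R` and `Re(u Q(t)) > M`: no choice of the terms beyond `T^(1/2 + ε)` can keep the real
  part below `T^(-ε) Z(T)` in an interval of bounded length.
* (criterion, all exponents) Let `κ ≥ 0`, `1/2 < θ ≤ 2 + 2κ`, `|u| = 1`. The bound
  `ζ(1/2 + it) = O(t^(κ + ε))` for all `ε > 0` is equivalent to the same bound for ONE section
  `P_N(t)`, `N = [t^θ]`, for each `t`, and also to the one-sided bound `Re(u P_N(t)) ≤ C t^(κ + ε)`.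
* (criterion, continuations) It is equivalent to the existence, for each large `T`, of ONE
  continuation `Q` of ONE section of length at least `T^(1/2 + δ)` and ONE direction `u` with
  `Re(u Q(t)) ≤ T^(κ + ε)` for `|t - T| ≤ R`.
* (Lindelöf hypothesis) For `1/2 < θ ≤ 2` the Lindelöf hypothesis is equivalent to the upper bound
  `∑_{n ≤ t^θ} n^(-1/2) cos(t log n) ≤ C t^ε` (for every `ε > 0`), one cosine sum for each `t`.

Proof. The Gaussian mean of `Re(uQ)` near `T` is small, as only the first few frequencies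
contribute; so the mean of its absolute value is at most twice the mean of the positive part plus
`O(e^(9b/8))`. Testing with `e^(iωv)` bounds the windows
`∑ n^(-1/2 - iT) exp(-(log n - ω)²/(2b))` for all `0 ≤ ω ≤ (1/2) log(T/2π)`, since the negative
frequencies and the terms beyond `N` do not matter. The integral of the windows over `ω` is the sum
with the smooth cutoff `Φ((D - log n)/√b)`, `D = (1/2) log(T/2π)`, and a symmetric approximate
functional equation with this cutoff (shift of the line of integration from `3/4` to `-3/4`,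
functional equation, Stirling's formula) bounds `ζ(1/2 + iT)` by twice this sum. Conversely the
sections are controlled by zeta through a contour integral over the critical line with a smooth
cutoff of relative width `1/t`.
-/

set_option autoImplicit false

open Complex MeasureTheory

namespace Pool.Agent.Results.MP_4e5e8a_nt.OneCosineSum

/-- the absolute value of zeta on the critical line -/
noncomputable def Z (t : ℝ) : ℝ := ‖riemannZeta (1 / 2 + (t : ℂ) * I)‖

/-- the section of length `N` of the zeta series on the critical line -/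
noncomputable def P (N : ℕ) (t : ℝ) : ℂ :=
  ∑ n ∈ Finset.Icc 1 N, (n : ℂ) ^ (-(1 / 2 + (t : ℂ) * I))

/-- the section with `J` additional terms `c j * exp (-i * lam j * t)` -/
noncomputable def Q (N J : ℕ) (c : Fin J → ℂ) (lam : Fin J → ℝ) (t : ℝ) : ℂ :=
  P N t + ∑ j, c j * Complex.exp (-((lam j : ℂ) * (t : ℂ) * I))

/-- `ζ(1/2 + it) = O((1 + |t|)^(κ + ε))` for every `ε > 0` -/
def Exponent (κ : ℝ) : Prop :=
  ∀ ε : ℝ, 0 < ε → ∃ C : ℝ, ∀ t : ℝ, Z t ≤ C * (1 + |t|) ^ (κ + ε)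

/-- the Lindelöf hypothesis -/
def Lindelof : Prop :=
  ∀ ε : ℝ, 0 < ε → ∃ C : ℝ, ∀ t : ℝ, Z t ≤ C * (1 + |t|) ^ ε

/-- one section, of length `⌊t^θ⌋`, for each height `t`, is `O(t^(κ + ε))` -/
def SectionBound (κ θ : ℝ) : Prop :=
  ∀ ε : ℝ, 0 < ε → ∃ C : ℝ, ∀ t : ℝ, 1 ≤ t → ‖P ⌊t ^ θ⌋₊ t‖ ≤ C * t ^ (κ + ε)

/-- the one-sided bound for this section in the direction `u` -/
def OneSided (κ θ : ℝ) (u : ℂ) : Prop :=
  ∀ ε : ℝ, 0 < ε → ∃ C : ℝ, ∀ t : ℝ, 1 ≤ t → (u * P ⌊t ^ θ⌋₊ t).re ≤ C * t ^ (κ + ε)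

/-- a one-sided bound, near each height `T`, for some continuation of some section of length at
least `T^(1/2 + δ)` in some direction -/
def SomeContinuation (κ : ℝ) : Prop :=
  ∀ ε : ℝ, 0 < ε → ∃ δ A : ℝ, 0 < δ ∧ ∀ R : ℝ, ∃ T₀ : ℝ, ∀ T : ℝ, T₀ ≤ T →
    ∃ (N J : ℕ) (c : Fin J → ℂ) (lam : Fin J → ℝ) (u : ℂ), T ^ (1 / 2 + δ) ≤ N ∧ (N : ℝ) ≤ T ^ A ∧
      (∀ j, Real.log N ≤ lam j) ∧ ∑ j, ‖c j‖ ≤ T ^ A ∧ ‖u‖ = 1 ∧
      ∀ t : ℝ, |t - T| ≤ R → (u * Q N J c lam t).re ≤ T ^ (κ + ε)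

theorem P_eq : P = Pool.Agent.H476.LS.P := by
  funext N t
  exact (Pool.Agent.H476.LS.P_eq_Icc N t).symm

theorem Q_eq : Q = Pool.Agent.H476.LS.Q := by
  funext N J c lam t
  unfold Q Pool.Agent.H476.LS.Q
  rw [P_eq]

theorem exp_iff (κ : ℝ) : Exponent κ ↔ Pool.Agent.H476.LS.Exponent κ := Iff.rfl

theorem sec_iff (κ θ : ℝ) : SectionBound κ θ ↔ Pool.Agent.H476.LS.SectionBound κ θ := by
  unfold SectionBound Pool.Agent.H476.LS.SectionBound
  rw [P_eq]

theorem one_iff (κ θ : ℝ) (u : ℂ) : OneSided κ θ u ↔ Pool.Agent.H476.LS.OneSided κ θ u := by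
  unfold OneSided Pool.Agent.H476.LS.OneSided
  rw [P_eq]

theorem some_iff (κ : ℝ) : SomeContinuation κ ↔ Pool.Agent.H476.LS.SomeContinuation κ := by
  unfold SomeContinuation Pool.Agent.H476.LS.SomeContinuation
  rw [Q_eq]

theorem lind_iff : Lindelof ↔ Exponent 0 := by
  unfold Lindelof Exponent
  simp_rw [zero_add]

theorem result :
    -- (1) the main inequality
    (∀ A : ℝ, 0 ≤ A → ∃ K T₀ : ℝ, ∀ T b : ℝ, T₀ ≤ T → 1 ≤ b → b ≤ Real.log T →
      ∀ (N J : ℕ) (c : Fin J → ℂ) (lam : Fin J → ℝ),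
        Real.sqrt T * Real.exp (K * Real.sqrt (b * Real.log T)) ≤ N → (∀ j, Real.log N ≤ lam j) →
        ∑ j, ‖c j‖ ≤ T ^ A → ∀ u : ℂ, ‖u‖ = 1 →
        Z T ≤ Real.log T * ((∫ v : ℝ, max (u * Q N J c lam (T + v)).re 0 *
          Real.exp (-(b / 2) * v ^ 2)) + K * Real.exp (9 * b / 8))) ∧
    -- (2) large values of zeta force large values of the real part of every continuation
    (∀ A ε : ℝ, 0 < ε → ∃ R T₀ : ℝ, ∀ T : ℝ, T₀ ≤ T →
      ∀ (N J : ℕ) (c : Fin J → ℂ) (lam : Fin J → ℝ), T ^ (1 / 2 + ε) ≤ N → (N : ℝ) ≤ T ^ A →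
        (∀ j, Real.log N ≤ lam j) → ∑ j, ‖c j‖ ≤ T ^ A → ∀ u : ℂ, ‖u‖ = 1 → ∀ M : ℝ, 1 ≤ M →
        T ^ ε * M < Z T → ∃ t : ℝ, |t - T| ≤ R ∧ M < (u * Q N J c lam t).re) ∧
    -- (3) the criteria for all exponents
    (∀ κ θ : ℝ, 0 ≤ κ → 1 / 2 < θ → θ ≤ 2 + 2 * κ →
      (Exponent κ ↔ SectionBound κ θ) ∧ ∀ u : ℂ, ‖u‖ = 1 → (Exponent κ ↔ OneSided κ θ u)) ∧
    (∀ κ : ℝ, 0 ≤ κ → (Exponent κ ↔ SomeContinuation κ)) ∧
    -- (4) the Lindelöf hypothesis and one cosine sum for each height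
    (∀ θ : ℝ, 1 / 2 < θ → θ ≤ 2 → (Lindelof ↔ ∀ ε : ℝ, 0 < ε → ∃ C : ℝ, ∀ t : ℝ, 1 ≤ t →
      ∑ n ∈ Finset.Icc 1 ⌊t ^ θ⌋₊, Real.cos (t * Real.log n) / Real.sqrt n ≤ C * t ^ ε)) := by
  refine ⟨?_, ?_, ?_, ?_, ?_⟩
  · intro A hA
    obtain ⟨K, T₀, hK, hT₀, h⟩ := Pool.Agent.H476.LS.main_ineq A hA
    refine ⟨K, T₀, fun T b hT hb hb2 N J c lam hN hlam hc u hu => ?_⟩
    rw [Q_eq]
    refine h T hT b hb hb2 N J c lam ?_ hlam hc u hu
    have hT0 : 0 < T := by linarith
    have h1 := Real.log_le_log (by positivity) hN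
    rw [Real.log_mul (by positivity) (by positivity), Real.log_exp, Real.log_sqrt hT0.le] at h1
    exact h1
  · intro A ε hε
    obtain ⟨R, T₀, hR, hT₀, h⟩ := Pool.Agent.H476.LS.local_form A ε hε
    refine ⟨R, T₀, fun T hT N J c lam hN hN2 hlam hc u hu M hM hZ => ?_⟩
    by_contra hcon
    push Not at hcon
    rw [Q_eq] at hcon
    have h1 := h T hT N J c lam hN hN2 hlam hc u hu M hM hcon
    exact absurd h1 (not_le.2 hZ)
  · intro κ θ hκ hθ hθ2
    refine ⟨⟨fun h => ?_, fun h => ?_⟩, fun u hu => ⟨fun h => ?_, fun h => ?_⟩⟩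
    · rw [sec_iff]
      exact Pool.Agent.H476.LS.sectionBound_of_exponent κ θ hκ (by linarith) hθ2 h
    · rw [sec_iff] at h
      exact Pool.Agent.H476.LS.exponent_of_oneSided κ θ 1 hκ hθ hθ2 norm_one
        (Pool.Agent.H476.LS.oneSided_of_sectionBound κ θ 1 norm_one h)
    · rw [one_iff]
      exact Pool.Agent.H476.LS.oneSided_of_sectionBound κ θ u hu
        (Pool.Agent.H476.LS.sectionBound_of_exponent κ θ hκ (by linarith) hθ2 h)
    · rw [one_iff] at h
      exact Pool.Agent.H476.LS.exponent_of_oneSided κ θ u hκ hθ hθ2 hu h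
  · intro κ hκ
    rw [some_iff]
    exact ⟨Pool.Agent.H476.LS.some_of_exponent κ hκ, Pool.Agent.H476.LS.exponent_of_some κ hκ⟩
  · intro θ hθ hθ2
    have hcos : ∀ (N : ℕ) (t : ℝ), ∑ n ∈ Finset.Icc 1 N, Real.cos (t * Real.log n) / Real.sqrt n =
        (1 * Pool.Agent.H476.LS.P N t).re := by
      intro N t
      rw [one_mul, Pool.Agent.H476.LS.P_re]
      symm
      rw [Finset.sum_bij (fun n _ => n + 1)]
      · intro n hn
        rw [Finset.mem_range] at hn
        rw [Finset.mem_Icc]; omega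
      · intro a _ b _ h
        omega
      · intro m hm
        rw [Finset.mem_Icc] at hm
        exact ⟨m - 1, by rw [Finset.mem_range]; omega, by omega⟩
      · intro n _
        push_cast
        rfl
    rw [lind_iff]
    have h1 : (∀ ε : ℝ, 0 < ε → ∃ C : ℝ, ∀ t : ℝ, 1 ≤ t →
        ∑ n ∈ Finset.Icc 1 ⌊t ^ θ⌋₊, Real.cos (t * Real.log n) / Real.sqrt n ≤ C * t ^ ε) ↔
        Pool.Agent.H476.LS.OneSided 0 θ 1 := by
      unfold Pool.Agent.H476.LS.OneSided
      simp_rw [hcos, zero_add]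
    rw [h1]
    exact ⟨fun h => Pool.Agent.H476.LS.oneSided_of_sectionBound 0 θ 1 norm_one
      (Pool.Agent.H476.LS.sectionBound_of_exponent 0 θ le_rfl (by linarith) (by linarith) h),
      fun h => Pool.Agent.H476.LS.exponent_of_oneSided 0 θ 1 le_rfl hθ (by linarith) norm_one h⟩

end Pool.Agent.Results.MP_4e5e8a_nt.OneCosineSum
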