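import Pool.Agent.H592.LI.B7

/-!
# The Lindelöf hypothesis and the asymptotic independence of the remainders in the Piltz divisor problems
-/

open MeasureTheory Filter Topology
open Pool.Agent.H592.LIS

namespace Pool.Agent.Results.MP_4e5e8a_nt.PiltzIndependence

theorem result :
    (∀ k : ℕ, 1 ≤ k → ∃! P : Polynomial ℝ, IsMain k P) ∧
    (∀ k : ℕ, 2 ≤ k → ∃! μ : ProbabilityMeasure ℝ, IsLaw k μ) ∧
    (∀ k : ℕ, 2 ≤ k → ∀ μ : ProbabilityMeasure ℝ, IsLaw k μ → ∫ y, y ∂(μ : Measure ℝ) = 0 ∧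
      ∫ y, y ^ 2 ∂(μ : Measure ℝ) = (∑' m : ℕ, (dv k m : ℝ) ^ 2 * (m:ℝ) ^ (-(1 + 1 / (k:ℝ)))) / (2 * Real.pi ^ 2 * k)) ∧
    ∀ P : ℕ → Polynomial ℝ, (∀ k : ℕ, 1 ≤ k → IsMain k (P k)) →
      ∀ μ : ℕ → ProbabilityMeasure ℝ, (∀ k : ℕ, 2 ≤ k → IsLaw k (μ k)) →
        List.TFAE [
          Lindelof,
          ∀ k : ℕ, 2 ≤ k → MeanSquareLimit k (P k),
          ∀ (d : ℕ) (k : Fin d → ℕ), Function.Injective k → (∀ i, 2 ≤ k i) → ∀ F : (Fin d → ℝ) → ℝ, Continuous F →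
            (∃ C : ℝ, ∀ y, |F y| ≤ C * (1 + ∑ i, y i ^ 2)) →
            MeanIs (fun x => F (fun i => E (k i) (P (k i)) x)) (∫ y, F y ∂(Measure.pi fun i => (μ (k i) : Measure ℝ))),
          ∀ k : ℕ, 2 ≤ k → MeanIs (fun x => E k (P k) x ^ 2)
            ((∑' m : ℕ, (dv k m : ℝ) ^ 2 * (m:ℝ) ^ (-(1 + 1 / (k:ℝ)))) / (2 * Real.pi ^ 2 * k)),
          {K : ℕ | 2 ≤ K ∧ (OneSided 1 K (P K) ∨ OneSided (-1) K (P K))}.Infinite] := by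
  refine ⟨fun k hk => Pool.Agent.Y853.PZ.existsUnique_main hk, fun k hk => ?_, fun k hk μ hμ =>
    Pool.Agent.H592.LI.law_moments hk hμ, fun P hP μ hμ => Pool.Agent.H592.LI.main_tfae hP hμ⟩
  obtain ⟨μ, hμ⟩ := Pool.Agent.H592.LI.law_exists hk
  exact ⟨μ, hμ, fun ν hν => Pool.Agent.H592.LI.law_unique hk hν hμ⟩

end Pool.Agent.Results.MP_4e5e8a_nt.PiltzIndependence
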